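import Mathlib

set_option autoImplicit false

/-!
Averages over intervals of products of periodic functions with coprime periods.
-/

namespace Pool.Agent.Helper73.OmegaShift

open Finset

theorem sum_Ico_period {h : ℕ → ℝ} {d : ℕ} (hp : Function.Periodic h d) (x : ℕ) :
    ∑ n ∈ Ico x (x + d), h n = ∑ n ∈ range d, h n := by
  induction x with
  | zero => rw [zero_add, Finset.range_eq_Ico]
  | succ x ih =>
    rcases Nat.eq_zero_or_pos d with rfl | hd
    · simp
    have h1 : ∑ n ∈ Ico x (x + d), h n = h x + ∑ n ∈ Ico (x + 1) (x + d), h n :=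
      Finset.sum_eq_sum_Ico_succ_bot (by omega) h
    have h2 : ∑ n ∈ Ico (x + 1) (x + 1 + d), h n =
        ∑ n ∈ Ico (x + 1) (x + d), h n + h (x + d) := by
      have : x + 1 + d = (x + d) + 1 := by omega
      rw [this]
      exact Finset.sum_Ico_succ_top (by omega) h
    rw [h2, hp x, ← ih, h1]
    ring

theorem sum_Ico_mul_period {h : ℕ → ℝ} {d : ℕ} (hp : Function.Periodic h d) (x q : ℕ) :
    ∑ n ∈ Ico x (x + q * d), h n = q * ∑ n ∈ range d, h n := by
  induction q with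
  | zero => simp
  | succ q ih =>
    have h1 : x + (q + 1) * d = (x + q * d) + d := by ring
    rw [h1, ← Finset.sum_Ico_consecutive h (show x ≤ x + q * d by omega)
      (show x + q * d ≤ x + q * d + d by omega), ih, sum_Ico_period hp]
    push_cast
    ring

theorem abs_sum_Ico_sub {h : ℕ → ℝ} {d : ℕ} (hd : 0 < d) (hp : Function.Periodic h d)
    (h0 : ∀ n, 0 ≤ h n) (x H : ℕ) :
    |∑ n ∈ Ico x (x + H), h n - H * ((∑ n ∈ range d, h n) / d)| ≤ ∑ n ∈ range d, h n := by
  set S := ∑ n ∈ range d, h n with hS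
  have hS0 : 0 ≤ S := Finset.sum_nonneg fun n _ => h0 n
  set q := H / d with hq
  have hq1 : q * d ≤ H := Nat.div_mul_le_self H d
  have hq2 : H < (q + 1) * d := by
    have := Nat.lt_div_mul_add hd (a := H)
    rw [← hq] at this
    linarith
  have h1 : (q : ℝ) * S ≤ ∑ n ∈ Ico x (x + H), h n := by
    rw [← sum_Ico_mul_period hp x q]
    exact Finset.sum_le_sum_of_subset_of_nonneg (Finset.Ico_subset_Ico_right (by omega))
      fun n _ _ => h0 n
  have h2 : ∑ n ∈ Ico x (x + H), h n ≤ (q + 1 : ℝ) * S := by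
    have h3 := sum_Ico_mul_period hp x (q + 1)
    push_cast at h3
    rw [← h3]
    exact Finset.sum_le_sum_of_subset_of_nonneg (Finset.Ico_subset_Ico_right (by omega))
      fun n _ _ => h0 n
  have hd' : (0 : ℝ) < d := by exact_mod_cast hd
  have hq1' : (q : ℝ) * d ≤ H := by exact_mod_cast hq1
  have hq2' : (H : ℝ) ≤ (q + 1) * d := by exact_mod_cast hq2.le
  have h4 : (q : ℝ) ≤ H / d := by rw [le_div_iff₀ hd']; exact hq1'
  have h5 : (H : ℝ) / d ≤ q + 1 := by rw [div_le_iff₀ hd']; exact hq2'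
  have h6 : (H : ℝ) * (S / d) = H / d * S := by ring
  rw [h6, abs_le]
  constructor
  · nlinarith [mul_le_mul_of_nonneg_right h5 hS0]
  · nlinarith [mul_le_mul_of_nonneg_right h4 hS0]

theorem crt_sum {a b : ℕ} (hab : a.Coprime b) (ha : 0 < a) (hb : 0 < b) {f g : ℕ → ℝ}
    (hf : Function.Periodic f a) (hg : Function.Periodic g b) :
    ∑ n ∈ range (a * b), f n * g n = (∑ n ∈ range a, f n) * ∑ n ∈ range b, g n := by
  rw [Finset.sum_mul_sum, ← Finset.sum_product']
  refine Finset.sum_nbij (fun n => (n % a, n % b)) ?_ ?_ ?_ ?_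
  · intro n _
    rw [Finset.mem_product, Finset.mem_range, Finset.mem_range]
    exact ⟨Nat.mod_lt _ ha, Nat.mod_lt _ hb⟩
  · intro n hn m hm hnm
    rw [Finset.mem_coe, Finset.mem_range] at hn hm
    have h1 : n % a = m % a := congrArg Prod.fst hnm
    have h2 : n % b = m % b := congrArg Prod.snd hnm
    have h3 : n ≡ m [MOD a * b] := (Nat.modEq_and_modEq_iff_modEq_mul hab).1 ⟨h1, h2⟩
    exact Nat.ModEq.eq_of_lt_of_lt h3 hn hm
  · rintro ⟨i, j⟩ hij
    rw [Finset.coe_product, Set.mem_prod, Finset.mem_coe, Finset.mem_coe, Finset.mem_range,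
      Finset.mem_range] at hij
    have hi : i < a := hij.1
    have hj : j < b := hij.2
    refine ⟨Nat.chineseRemainder hab i j, ?_, ?_⟩
    · rw [Finset.mem_coe, Finset.mem_range]
      exact Nat.chineseRemainder_lt_mul hab i j (by omega) (by omega)
    · have h1 := (Nat.chineseRemainder hab i j).2
      refine Prod.ext ?_ ?_
      · have h2 : (Nat.chineseRemainder hab i j : ℕ) % a = i % a := h1.1
        exact h2.trans (Nat.mod_eq_of_lt hi)
      · have h2 : (Nat.chineseRemainder hab i j : ℕ) % b = j % b := h1.2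
        exact h2.trans (Nat.mod_eq_of_lt hj)
  · intro n _
    show f n * g n = f (n % a) * g (n % b)
    rw [hf.map_mod_nat, hg.map_mod_nat]

theorem crt_prod {ι : Type*} [DecidableEq ι] (s : Finset ι) (d : ι → ℕ) (h : ι → ℕ → ℝ)
    (hd : ∀ i ∈ s, 0 < d i) (hc : ∀ i ∈ s, ∀ j ∈ s, i ≠ j → (d i).Coprime (d j))
    (hp : ∀ i ∈ s, Function.Periodic (h i) (d i)) :
    Function.Periodic (fun n => ∏ i ∈ s, h i n) (∏ i ∈ s, d i) ∧
      ∑ n ∈ range (∏ i ∈ s, d i), ∏ i ∈ s, h i n = ∏ i ∈ s, ∑ n ∈ range (d i), h i n := by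
  induction s using Finset.induction_on with
  | empty =>
    refine ⟨fun n => by simp, by simp⟩
  | insert i s hi ih =>
    obtain ⟨ih1, ih2⟩ := ih (fun j hj => hd j (mem_insert_of_mem hj))
      (fun j hj k hk => hc j (mem_insert_of_mem hj) k (mem_insert_of_mem hk))
      (fun j hj => hp j (mem_insert_of_mem hj))
    have hd1 : 0 < d i := hd i (mem_insert_self _ _)
    have hd2 : 0 < ∏ j ∈ s, d j := Finset.prod_pos fun j hj => hd j (mem_insert_of_mem hj)
    have hco : (d i).Coprime (∏ j ∈ s, d j) :=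
      Nat.Coprime.prod_right fun j hj => hc i (mem_insert_self _ _) j (mem_insert_of_mem hj)
        (fun hij => hi (hij ▸ hj))
    have hpi := hp i (mem_insert_self _ _)
    constructor
    · intro n
      show ∏ j ∈ insert i s, h j (n + ∏ j ∈ insert i s, d j) = ∏ j ∈ insert i s, h j n
      rw [Finset.prod_insert hi, Finset.prod_insert hi, Finset.prod_insert hi]
      have h1 : h i (n + d i * ∏ j ∈ s, d j) = h i n := by
        have := hpi.nat_mul (∏ j ∈ s, d j)
        have h2 := this n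
        rw [mul_comm (d i)]
        exact h2
      have h3 : ∏ j ∈ s, h j (n + d i * ∏ j ∈ s, d j) = ∏ j ∈ s, h j n := by
        have := ih1.nat_mul (d i)
        exact this n
      rw [h1, h3]
    · rw [Finset.prod_insert hi, Finset.prod_insert hi, ← ih2, ← crt_sum hco hd1 hd2 hpi ih1]
      refine Finset.sum_congr rfl fun n _ => ?_
      rw [Finset.prod_insert hi]

theorem avg_prod {ι α : Type*} [Fintype ι] [DecidableEq ι] (A : ι → Finset α)
    (c : ι → α → ℝ) (h : ι → α → ℕ → ℝ) (d : ι → α → ℕ)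
    (hd : ∀ i, ∀ a ∈ A i, 0 < d i a)
    (hc : ∀ i j, i ≠ j → ∀ a ∈ A i, ∀ b ∈ A j, (d i a).Coprime (d j b))
    (hp : ∀ i, ∀ a ∈ A i, Function.Periodic (h i a) (d i a))
    (h0 : ∀ i a n, 0 ≤ h i a n) (x H : ℕ) :
    |∑ n ∈ Ico x (x + H), ∏ i, ∑ a ∈ A i, c i a * h i a n -
        H * ∏ i, ∑ a ∈ A i, c i a * ((∑ n ∈ range (d i a), h i a n) / d i a)| ≤
      ∏ i, ∑ a ∈ A i, |c i a| * ∑ n ∈ range (d i a), h i a n := by
  classical
  have e1 : ∀ n, ∏ i, ∑ a ∈ A i, c i a * h i a n =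
      ∑ p ∈ Fintype.piFinset A, ∏ i, (c i (p i) * h i (p i) n) := fun n =>
    Finset.prod_univ_sum A _
  have e2 : ∏ i, ∑ a ∈ A i, c i a * ((∑ n ∈ range (d i a), h i a n) / d i a) =
      ∑ p ∈ Fintype.piFinset A, ∏ i, (c i (p i) *
        ((∑ n ∈ range (d i (p i)), h i (p i) n) / d i (p i))) := Finset.prod_univ_sum A _
  have e3 : ∏ i, ∑ a ∈ A i, |c i a| * ∑ n ∈ range (d i a), h i a n =
      ∑ p ∈ Fintype.piFinset A, ∏ i, (|c i (p i)| *
        ∑ n ∈ range (d i (p i)), h i (p i) n) := Finset.prod_univ_sum A _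
  simp_rw [e1]
  rw [e2, e3, Finset.sum_comm, Finset.mul_sum, ← Finset.sum_sub_distrib]
  refine (Finset.abs_sum_le_sum_abs _ _).trans (Finset.sum_le_sum fun p hpm => ?_)
  rw [Fintype.mem_piFinset] at hpm
  have h1 := crt_prod (univ : Finset ι) (fun i => d i (p i)) (fun i => h i (p i))
    (fun i _ => hd i _ (hpm i)) (fun i _ j _ hij => hc i j hij _ (hpm i) _ (hpm j))
    (fun i _ => hp i _ (hpm i))
  obtain ⟨h2, h3⟩ := h1
  have hdp : 0 < ∏ i, d i (p i) := Finset.prod_pos fun i _ => hd i _ (hpm i)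
  have h4 := abs_sum_Ico_sub hdp h2 (fun n => Finset.prod_nonneg fun i _ => h0 i (p i) n) x H
  rw [h3] at h4
  have h5 : ∑ n ∈ Ico x (x + H), ∏ i, (c i (p i) * h i (p i) n) =
      (∏ i, c i (p i)) * ∑ n ∈ Ico x (x + H), ∏ i, h i (p i) n := by
    rw [Finset.mul_sum]
    refine Finset.sum_congr rfl fun n _ => ?_
    rw [Finset.prod_mul_distrib]
  have h6 : ∏ i, (c i (p i) * ((∑ n ∈ range (d i (p i)), h i (p i) n) / d i (p i))) =
      (∏ i, c i (p i)) * ((∏ i, ∑ n ∈ range (d i (p i)), h i (p i) n) /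
        ((∏ i, d i (p i) : ℕ) : ℝ)) := by
    rw [Finset.prod_mul_distrib, Finset.prod_div_distrib]
    push_cast
    rfl
  rw [h5, h6]
  have h7 : (∏ i, c i (p i)) * ∑ n ∈ Ico x (x + H), ∏ i, h i (p i) n -
      H * ((∏ i, c i (p i)) * ((∏ i, ∑ n ∈ range (d i (p i)), h i (p i) n) /
        ((∏ i, d i (p i) : ℕ) : ℝ))) =
      (∏ i, c i (p i)) * (∑ n ∈ Ico x (x + H), ∏ i, h i (p i) n -
        H * ((∏ i, ∑ n ∈ range (d i (p i)), h i (p i) n) /
        ((∏ i, d i (p i) : ℕ) : ℝ))) := by ring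
  rw [h7, abs_mul, Finset.prod_mul_distrib, Finset.abs_prod]
  exact mul_le_mul_of_nonneg_left h4 (Finset.prod_nonneg fun i _ => abs_nonneg _)

end Pool.Agent.Helper73.OmegaShift
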