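import Mathlib
import Pool.Prelude.Def_F_835ec2c3

set_option autoImplicit false

/-!
The family defining `F n` is bounded.
-/

namespace Pool.Agent.Helper73.OmegaShift

open Finset
open scoped ArithmeticFunction.omega

/-- the terms of the supremum `F n` -/
noncomputable def term (n k : ℕ) : ℝ :=
  (ω (n + k) : ℝ) * (Real.log (Real.log (k : ℝ)) / Real.log (k : ℝ))

theorem F_eq (n : ℕ) : N4a4fba6b.F n = ⨆ k : ℕ, term n k := rfl

theorem factorial_card_le_prod (s : Finset ℕ) (h0 : ∀ x ∈ s, 0 < x) :
    s.card.factorial ≤ ∏ x ∈ s, x := by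
  induction s using Finset.induction_on_max with
  | empty => simp
  | insert a s ha ih =>
    have has : a ∉ s := fun h => lt_irrefl _ (ha a h)
    rw [Finset.card_insert_of_notMem has, Finset.prod_insert has, Nat.factorial_succ]
    have h1 : s ⊆ Finset.Ioo 0 a := fun x hx =>
      Finset.mem_Ioo.2 ⟨h0 x (mem_insert_of_mem hx), ha x hx⟩
    have h2 := Finset.card_le_card h1
    rw [Nat.card_Ioo] at h2
    have h3 : 0 < a := h0 a (mem_insert_self _ _)
    exact Nat.mul_le_mul (by omega) (ih fun x hx => h0 x (mem_insert_of_mem hx))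

theorem omega_factorial_le {m : ℕ} (hm : 0 < m) : (ω m).factorial ≤ m := by
  rw [ArithmeticFunction.cardDistinctFactors_apply]
  have h1 : m.primeFactorsList.dedup.length = m.primeFactors.card := rfl
  rw [h1]
  have h2 := factorial_card_le_prod m.primeFactors fun x hx =>
    (Nat.prime_of_mem_primeFactors hx).pos
  exact h2.trans (Nat.le_of_dvd hm (Nat.prod_primeFactors_dvd m))

theorem omega_log_le {m : ℕ} (hm : 0 < m) (hw : 0 < ω m) :
    (ω m : ℝ) * Real.log (ω m) ≤ Real.log m + ω m := by
  set w := ω m with hwd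
  have hw' : (0 : ℝ) < w := by exact_mod_cast hw
  have h1 : (w : ℝ) ^ w / (w.factorial : ℝ) ≤ Real.exp w :=
    Real.pow_div_factorial_le_exp (w : ℝ) hw'.le w
  have hf : (0 : ℝ) < w.factorial := by exact_mod_cast Nat.factorial_pos w
  rw [div_le_iff₀ hf] at h1
  have h2 : ((w.factorial : ℕ) : ℝ) ≤ m := by exact_mod_cast omega_factorial_le hm
  have hm' : (0 : ℝ) < m := by exact_mod_cast hm
  have h3 : (w : ℝ) ^ w ≤ Real.exp w * m :=
    h1.trans (mul_le_mul_of_nonneg_left h2 (Real.exp_pos _).le)
  have h4 := Real.log_le_log (by positivity) h3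
  rw [Real.log_pow, Real.log_mul (Real.exp_pos _).ne' hm'.ne', Real.log_exp] at h4
  linarith

theorem bddAbove_term (n : ℕ) : BddAbove (Set.range (term n)) := by
  have hn0 : (1 : ℝ) ≤ (n : ℝ) + 1 := by
    have : (0 : ℝ) ≤ n := Nat.cast_nonneg n
    linarith
  have hA0 : 0 ≤ Real.log ((n : ℝ) + 1) := Real.log_nonneg hn0
  set A := 1 + Real.log ((n : ℝ) + 1) with hA
  -- large `k`
  have hlarge : ∀ k : ℕ, Real.exp (Real.exp 4) ≤ k → term n k ≤ 4 * A := by
    intro k hk
    have hk0 : (0 : ℝ) < k := (Real.exp_pos _).trans_le hk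
    set u := Real.log k with hu
    have hu1 : Real.exp 4 ≤ u := by
      rw [hu, Real.le_log_iff_exp_le hk0]
      exact hk
    have he4 : (1 : ℝ) ≤ Real.exp 4 := by
      have := Real.add_one_le_exp (4 : ℝ)
      linarith
    have hu0 : 1 ≤ u := he4.trans hu1
    have hlu : 4 ≤ Real.log u := by
      rw [Real.le_log_iff_exp_le (by linarith)]
      exact hu1
    have hknat : 0 < k := by exact_mod_cast hk0
    have hlogm : Real.log ((n + k : ℕ) : ℝ) ≤ A * u := by
      have h1 : ((n + k : ℕ) : ℝ) ≤ ((n : ℝ) + 1) * k := by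
        push_cast
        have h2 : (1 : ℝ) ≤ k := by exact_mod_cast hknat
        have h3 : (0 : ℝ) ≤ n := Nat.cast_nonneg n
        nlinarith
      have h4 : (0 : ℝ) < ((n + k : ℕ) : ℝ) := by exact_mod_cast (by omega : 0 < n + k)
      have h5 := Real.log_le_log h4 h1
      rw [Real.log_mul (by linarith) hk0.ne'] at h5
      rw [hA]
      nlinarith
    unfold term
    rw [← hu]
    rcases Nat.eq_zero_or_pos (ω (n + k)) with hw | hw
    · rw [hw]
      simp only [Nat.cast_zero, zero_mul]
      positivity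
    have hw' : (0 : ℝ) < (ω (n + k) : ℝ) := by exact_mod_cast hw
    have key := omega_log_le (m := n + k) (by omega) hw
    set w := (ω (n + k) : ℝ) with hwd
    rw [mul_div_assoc', div_le_iff₀ (by linarith)]
    rcases le_or_gt w (Real.sqrt u) with h1 | h1
    · -- `w ≤ √u`
      have h2 : Real.log u ≤ 2 * Real.sqrt u := by
        have h3 : Real.log u = 2 * Real.log (Real.sqrt u) := by
          rw [Real.log_sqrt (by linarith)]
          ring
        rw [h3]
        have h4 := Real.log_le_sub_one_of_pos (Real.sqrt_pos.2 (by linarith : 0 < u))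
        linarith
      have h5 : Real.sqrt u * Real.sqrt u = u := Real.mul_self_sqrt (by linarith)
      have h6 : 0 ≤ Real.sqrt u := Real.sqrt_nonneg u
      calc w * Real.log u ≤ Real.sqrt u * (2 * Real.sqrt u) :=
            mul_le_mul h1 h2 (by linarith) h6
        _ = 2 * (Real.sqrt u * Real.sqrt u) := by ring
        _ = 2 * u := by rw [h5]
        _ ≤ 4 * A * u := by
            have : 1 ≤ A := by rw [hA]; linarith
            nlinarith
    · -- `w > √u`
      have h2 : Real.log u / 2 ≤ Real.log w := by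
        rw [← Real.log_sqrt (by linarith)]
        exact Real.log_le_log (Real.sqrt_pos.2 (by linarith)) h1.le
      have h3 : w * (Real.log u / 2) ≤ w * Real.log w := mul_le_mul_of_nonneg_left h2 hw'.le
      have h4 : w * 1 ≤ w * (Real.log u / 4) := mul_le_mul_of_nonneg_left (by linarith) hw'.le
      nlinarith
  set K := ⌈Real.exp (Real.exp 4)⌉₊ with hK
  refine ⟨4 * A + ∑ j ∈ range K, |term n j|, ?_⟩
  rintro _ ⟨k, rfl⟩
  have hs : 0 ≤ ∑ j ∈ range K, |term n j| := Finset.sum_nonneg fun j _ => abs_nonneg _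
  have hA1 : 0 ≤ A := by rw [hA]; linarith
  rcases Nat.lt_or_ge k K with h | h
  · have h1 : |term n k| ≤ ∑ j ∈ range K, |term n j| :=
      Finset.single_le_sum (f := fun j => |term n j|) (fun j _ => abs_nonneg _)
        (Finset.mem_range.2 h)
    have h2 := le_abs_self (term n k)
    linarith
  · have h1 := hlarge k ((Nat.le_ceil _).trans (by exact_mod_cast h))
    linarith

theorem term_le_F (n k : ℕ) : term n k ≤ N4a4fba6b.F n := by
  rw [F_eq]
  exact le_ciSup (bddAbove_term n) k

end Pool.Agent.Helper73.OmegaShift
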