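import Mathlib
import Pool.Agent.Helper73.OmegaShift.Avg

set_option autoImplicit false

/-!
A second moment sieve with blocks of primes.
-/

namespace Pool.Agent.Helper73.OmegaShift

open Finset

/-- the coefficients of `1 - X / μ` -/
noncomputable def ev (μ : ℝ) : Option ℕ → ℝ
  | none => 1
  | some _ => -(1 / μ)

/-- the functions `1` and `v p` -/
noncomputable def VV (v : ℕ → ℕ → ℝ) : Option ℕ → ℕ → ℝ
  | none => fun _ => 1
  | some p => v p

/-- the periods -/
def DD : Option ℕ → ℕ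
  | none => 1
  | some p => p

/-- coefficients of the pairs -/
noncomputable def cc (μ : ℝ) (a : Option ℕ × Option ℕ) : ℝ :=
  ev μ a.1 * ev μ a.2 + if a.1 = none ∧ a.2 = none then 1 / 16 else 0

/-- periods of the pairs -/
def dd (a : Option ℕ × Option ℕ) : ℕ := if a.1 = a.2 then DD a.1 else DD a.1 * DD a.2

/-- sum of `VV` over a period -/
noncomputable def SS (v : ℕ → ℕ → ℝ) : Option ℕ → ℝ
  | none => 1
  | some p => ∑ n ∈ range p, v p n

/-- mean of `VV` -/
noncomputable def WW (v : ℕ → ℕ → ℝ) : Option ℕ → ℝ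
  | none => 1
  | some p => (∑ n ∈ range p, v p n) / p

/-- the index set of a block -/
def AA (B : Finset ℕ) : Finset (Option ℕ × Option ℕ) := insertNone B ×ˢ insertNone B

section block

variable {v : ℕ → ℕ → ℝ} {B : Finset ℕ} {μ : ℝ}

theorem sum_pair (F : Option ℕ × Option ℕ → ℝ) :
    ∑ a ∈ AA B, F a = ∑ a ∈ insertNone B, ∑ b ∈ insertNone B, F (a, b) := by
  unfold AA
  rw [Finset.sum_product]

theorem sum_ite_none (F : Option ℕ → Option ℕ → ℝ) :
    ∑ a ∈ insertNone B, ∑ b ∈ insertNone B,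
      (if a = none ∧ b = none then F a b else 0) = F none none := by
  rw [Finset.sum_insertNone, Finset.sum_insertNone]
  simp

theorem sum_ev (f : Option ℕ → ℝ) :
    ∑ a ∈ insertNone B, ev μ a * f a = f none - (∑ p ∈ B, f (some p)) / μ := by
  rw [Finset.sum_insertNone]
  have h1 : ∑ p ∈ B, ev μ (some p) * f (some p) = -((∑ p ∈ B, f (some p)) / μ) := by
    rw [Finset.sum_div, ← Finset.sum_neg_distrib]
    refine Finset.sum_congr rfl fun p _ => ?_
    show -(1 / μ) * f (some p) = -(f (some p) / μ)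
    ring
  rw [h1]
  show 1 * f none + -((∑ p ∈ B, f (some p)) / μ) = _
  ring

theorem block_eval (n : ℕ) :
    ∑ a ∈ AA B, cc μ a * (VV v a.1 n * VV v a.2 n) =
      1 / 16 + (1 - (∑ p ∈ B, v p n) / μ) ^ 2 := by
  rw [sum_pair]
  have h1 : ∀ a b : Option ℕ, cc μ (a, b) * (VV v a n * VV v b n) =
      (ev μ a * VV v a n) * (ev μ b * VV v b n) +
      (if a = none ∧ b = none then 1 / 16 * (VV v a n * VV v b n) else 0) := by
    intro a b
    unfold cc
    split_ifs <;> ring
  simp_rw [h1, Finset.sum_add_distrib]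
  rw [sum_ite_none (fun a b => 1 / 16 * (VV v a n * VV v b n))]
  have h2 : ∑ a ∈ insertNone B, ∑ b ∈ insertNone B,
      (ev μ a * VV v a n) * (ev μ b * VV v b n) =
      (∑ a ∈ insertNone B, ev μ a * VV v a n) ^ 2 := by
    rw [sq, Finset.sum_mul_sum]
  rw [h2, sum_ev (fun a => VV v a n)]
  show (1 - (∑ p ∈ B, v p n) / μ) ^ 2 + 1 / 16 * (1 * 1) = _
  ring

theorem VV_mul_self (h01 : ∀ p n, v p n = 0 ∨ v p n = 1) (a : Option ℕ) (n : ℕ) :
    VV v a n * VV v a n = VV v a n := by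
  cases a with
  | none => exact one_mul 1
  | some p =>
    show v p n * v p n = v p n
    rcases h01 p n with h | h <;> rw [h] <;> norm_num

theorem VV_nonneg (h01 : ∀ p n, v p n = 0 ∨ v p n = 1) (a : Option ℕ) (n : ℕ) :
    0 ≤ VV v a n := by
  cases a with
  | none => exact zero_le_one
  | some p =>
    show 0 ≤ v p n
    rcases h01 p n with h | h <;> rw [h]
    norm_num

theorem DD_pos (hB : ∀ p ∈ B, p.Prime) {a : Option ℕ} (ha : a ∈ insertNone B) : 0 < DD a := by
  cases a with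
  | none => exact Nat.one_pos
  | some p => exact (hB p (Finset.some_mem_insertNone.1 ha)).pos

theorem VV_periodic (hper : ∀ p ∈ B, Function.Periodic (v p) p) {a : Option ℕ}
    (ha : a ∈ insertNone B) : Function.Periodic (VV v a) (DD a) := by
  cases a with
  | none => exact fun _ => rfl
  | some p => exact hper p (Finset.some_mem_insertNone.1 ha)

theorem DD_coprime (hB : ∀ p ∈ B, p.Prime) {a b : Option ℕ} (ha : a ∈ insertNone B)
    (hb : b ∈ insertNone B) (hab : a ≠ b) : (DD a).Coprime (DD b) := by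
  cases a with
  | none => exact Nat.coprime_one_left _
  | some p =>
    cases b with
    | none => exact Nat.coprime_one_right _
    | some q =>
      refine (Nat.coprime_primes (hB p (Finset.some_mem_insertNone.1 ha))
        (hB q (Finset.some_mem_insertNone.1 hb))).2 ?_
      rintro rfl
      exact hab rfl

theorem sum_VV (a : Option ℕ) : ∑ n ∈ range (DD a), VV v a n = SS v a := by
  cases a with
  | none =>
    show ∑ n ∈ range 1, (1 : ℝ) = 1
    simp
  | some p => rfl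

theorem WW_eq (a : Option ℕ) : SS v a / DD a = WW v a := by
  cases a with
  | none =>
    show (1 : ℝ) / ((1 : ℕ) : ℝ) = 1
    norm_num
  | some p => rfl

theorem pair_sum (hB : ∀ p ∈ B, p.Prime) (h01 : ∀ p n, v p n = 0 ∨ v p n = 1)
    (hper : ∀ p ∈ B, Function.Periodic (v p) p) {a b : Option ℕ} (ha : a ∈ insertNone B)
    (hb : b ∈ insertNone B) :
    ∑ n ∈ range (dd (a, b)), VV v a n * VV v b n =
      if a = b then SS v a else SS v a * SS v b := by
  unfold dd
  by_cases hab : a = b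
  · subst hab
    simp only [if_true]
    simp_rw [VV_mul_self h01]
    exact sum_VV a
  · have e : (if (a, b).1 = (a, b).2 then DD (a, b).1 else DD (a, b).1 * DD (a, b).2) =
        DD a * DD b := if_neg hab
    rw [e, if_neg hab, crt_sum (DD_coprime hB ha hb hab) (DD_pos hB ha) (DD_pos hB hb)
      (VV_periodic hper ha) (VV_periodic hper hb), sum_VV, sum_VV]

theorem pair_mean (hB : ∀ p ∈ B, p.Prime) (h01 : ∀ p n, v p n = 0 ∨ v p n = 1)
    (hper : ∀ p ∈ B, Function.Periodic (v p) p) {a b : Option ℕ} (ha : a ∈ insertNone B)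
    (hb : b ∈ insertNone B) :
    (∑ n ∈ range (dd (a, b)), VV v a n * VV v b n) / dd (a, b) =
      WW v a * WW v b + if a = b then WW v a - WW v a * WW v a else 0 := by
  rw [pair_sum hB h01 hper ha hb]
  unfold dd
  by_cases hab : a = b
  · subst hab
    simp only [if_true]
    rw [WW_eq]
    ring
  · have e : (if (a, b).1 = (a, b).2 then DD (a, b).1 else DD (a, b).1 * DD (a, b).2) =
        DD a * DD b := if_neg hab
    rw [e, if_neg hab, if_neg hab, ← WW_eq a, ← WW_eq b]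
    push_cast
    rw [add_zero, mul_div_mul_comm]

theorem block_mean (hB : ∀ p ∈ B, p.Prime) (h01 : ∀ p n, v p n = 0 ∨ v p n = 1)
    (hper : ∀ p ∈ B, Function.Periodic (v p) p)
    (hμ : μ = ∑ p ∈ B, (∑ n ∈ range p, v p n) / p) (h16 : 16 ≤ μ) :
    0 ≤ ∑ a ∈ AA B, cc μ a * ((∑ n ∈ range (dd a), VV v a.1 n * VV v a.2 n) / dd a) ∧
    ∑ a ∈ AA B, cc μ a * ((∑ n ∈ range (dd a), VV v a.1 n * VV v a.2 n) / dd a) ≤ 1 / 8 := by
  have hμ0 : 0 < μ := by linarith
  have key : ∑ a ∈ AA B, cc μ a * ((∑ n ∈ range (dd a), VV v a.1 n * VV v a.2 n) / dd a) =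
      1 / 16 + ∑ p ∈ B, (1 / μ) ^ 2 * (WW v (some p) - WW v (some p) * WW v (some p)) := by
    rw [sum_pair]
    have h1 : ∀ a ∈ insertNone B, ∀ b ∈ insertNone B,
        cc μ (a, b) * ((∑ n ∈ range (dd (a, b)), VV v (a, b).1 n * VV v (a, b).2 n) /
          dd (a, b)) =
        (ev μ a * WW v a) * (ev μ b * WW v b) +
        (if a = b then ev μ a ^ 2 * (WW v a - WW v a * WW v a) else 0) +
        (if a = none ∧ b = none then 1 / 16 * (WW v a * WW v b + (WW v a - WW v a * WW v a))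
          else 0) := by
      intro a ha b hb
      have h2 : (∑ n ∈ range (dd (a, b)), VV v (a, b).1 n * VV v (a, b).2 n) / dd (a, b) =
        WW v a * WW v b + if a = b then WW v a - WW v a * WW v a else 0 :=
        pair_mean hB h01 hper ha hb
      rw [h2]
      unfold cc
      by_cases hab : a = b
      · subst hab
        simp only [and_self, if_true]
        split_ifs <;> ring
      · have hn : ¬ (a = none ∧ b = none) := fun h => hab (h.1.trans h.2.symm)
        have e1 : (if (a, b).1 = none ∧ (a, b).2 = none then (1 / 16 : ℝ) else 0) = 0 :=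
          if_neg hn
        rw [e1, if_neg hab, if_neg hab, if_neg hn]
        ring
    rw [Finset.sum_congr rfl fun a ha => Finset.sum_congr rfl fun b hb => h1 a ha b hb]
    simp_rw [Finset.sum_add_distrib]
    rw [sum_ite_none (fun a b => 1 / 16 * (WW v a * WW v b + (WW v a - WW v a * WW v a)))]
    have h3 : ∑ a ∈ insertNone B, ∑ b ∈ insertNone B,
        (ev μ a * WW v a) * (ev μ b * WW v b) = 0 := by
      rw [← Finset.sum_mul_sum, sum_ev (WW v)]
      have h4 : (∑ p ∈ B, WW v (some p)) = μ := hμ.symm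
      rw [h4, div_self hμ0.ne']
      show (1 - 1 : ℝ) * _ = 0
      ring
    have h5 : ∑ a ∈ insertNone B, ∑ b ∈ insertNone B,
        (if a = b then ev μ a ^ 2 * (WW v a - WW v a * WW v a) else 0) =
        ∑ p ∈ B, (1 / μ) ^ 2 * (WW v (some p) - WW v (some p) * WW v (some p)) := by
      have h6 : ∀ a ∈ insertNone B, ∑ b ∈ insertNone B,
          (if a = b then ev μ a ^ 2 * (WW v a - WW v a * WW v a) else 0) =
          ev μ a ^ 2 * (WW v a - WW v a * WW v a) := by
        intro a ha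
        rw [Finset.sum_ite_eq, if_pos ha]
      rw [Finset.sum_congr rfl h6, Finset.sum_insertNone]
      have h7 : ev μ none ^ 2 * (WW v none - WW v none * WW v none) = 0 := by
        show (1 : ℝ) ^ 2 * (1 - 1 * 1) = 0
        norm_num
      rw [h7, zero_add]
      refine Finset.sum_congr rfl fun p _ => ?_
      show (-(1 / μ)) ^ 2 * _ = _
      ring
    rw [h3, h5]
    show 0 + _ + 1 / 16 * ((1 : ℝ) * 1 + (1 - 1 * 1)) = _
    ring
  have hw : ∀ p ∈ B, 0 ≤ WW v (some p) ∧ WW v (some p) ≤ 1 := by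
    intro p hp
    have hpp := (hB p hp).pos
    have hpp' : (0 : ℝ) < p := by exact_mod_cast hpp
    have h8 : 0 ≤ ∑ n ∈ range p, v p n := Finset.sum_nonneg fun n _ => by
      rcases h01 p n with h | h <;> rw [h]
      norm_num
    have h9 : ∑ n ∈ range p, v p n ≤ p := by
      calc ∑ n ∈ range p, v p n ≤ ∑ n ∈ range p, (1 : ℝ) := Finset.sum_le_sum fun n _ => by
            rcases h01 p n with h | h <;> rw [h]
            norm_num
        _ = p := by simp
    constructor
    · exact div_nonneg h8 hpp'.le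
    · show (∑ n ∈ range p, v p n) / p ≤ 1
      rw [div_le_one hpp']
      exact h9
  rw [key]
  constructor
  · have : 0 ≤ ∑ p ∈ B, (1 / μ) ^ 2 * (WW v (some p) - WW v (some p) * WW v (some p)) :=
      Finset.sum_nonneg fun p hp => by
        obtain ⟨h1, h2⟩ := hw p hp
        have : 0 ≤ WW v (some p) - WW v (some p) * WW v (some p) := by nlinarith
        positivity
    linarith
  · have h1 : ∑ p ∈ B, (1 / μ) ^ 2 * (WW v (some p) - WW v (some p) * WW v (some p)) ≤
        ∑ p ∈ B, (1 / μ) ^ 2 * WW v (some p) := Finset.sum_le_sum fun p hp => by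
      obtain ⟨h1, h2⟩ := hw p hp
      refine mul_le_mul_of_nonneg_left ?_ (by positivity)
      nlinarith
    have h2 : ∑ p ∈ B, (1 / μ) ^ 2 * WW v (some p) = 1 / μ := by
      rw [← Finset.mul_sum]
      have h4 : (∑ p ∈ B, WW v (some p)) = μ := hμ.symm
      rw [h4]
      field_simp
    have h3 : 1 / μ ≤ 1 / 16 := one_div_le_one_div_of_le (by norm_num) h16
    linarith

theorem block_err (hB : ∀ p ∈ B, p.Prime) (h01 : ∀ p n, v p n = 0 ∨ v p n = 1)
    (hper : ∀ p ∈ B, Function.Periodic (v p) p) (hs : ∀ p ∈ B, 1 ≤ ∑ n ∈ range p, v p n)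
    (h16 : 16 ≤ μ) {Y : ℕ} (hY : ∀ p ∈ B, p ≤ Y) (hY2 : 2 ≤ Y) :
    0 ≤ ∑ a ∈ AA B, |cc μ a| * ∑ n ∈ range (dd a), VV v a.1 n * VV v a.2 n ∧
    ∑ a ∈ AA B, |cc μ a| * ∑ n ∈ range (dd a), VV v a.1 n * VV v a.2 n ≤ (Y : ℝ) ^ 4 := by
  have hμ0 : 0 < μ := by linarith
  constructor
  · exact Finset.sum_nonneg fun a _ => mul_nonneg (abs_nonneg _) (Finset.sum_nonneg fun n _ =>
      mul_nonneg (VV_nonneg h01 _ _) (VV_nonneg h01 _ _))
  rw [sum_pair]
  have hSS : ∀ a ∈ insertNone B, 1 ≤ SS v a := by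
    intro a ha
    cases a with
    | none => exact le_refl (1 : ℝ)
    | some p => exact hs p (Finset.some_mem_insertNone.1 ha)
  have h1 : ∀ a ∈ insertNone B, ∀ b ∈ insertNone B,
      |cc μ (a, b)| * ∑ n ∈ range (dd (a, b)), VV v (a, b).1 n * VV v (a, b).2 n ≤
      (|ev μ a| * SS v a) * (|ev μ b| * SS v b) +
      (if a = none ∧ b = none then 1 / 16 * (SS v a * SS v b) else 0) := by
    intro a ha b hb
    have h2 : ∑ n ∈ range (dd (a, b)), VV v (a, b).1 n * VV v (a, b).2 n =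
      if a = b then SS v a else SS v a * SS v b := pair_sum hB h01 hper ha hb
    have h3 : ∑ n ∈ range (dd (a, b)), VV v (a, b).1 n * VV v (a, b).2 n ≤
        SS v a * SS v b := by
      rw [h2]
      split_ifs with hab
      · subst hab
        nlinarith [hSS a ha]
      · exact le_refl _
    have hpos : 0 ≤ SS v a * SS v b :=
      mul_nonneg (by linarith [hSS a ha]) (by linarith [hSS b hb])
    have h4 : |cc μ (a, b)| ≤ |ev μ a| * |ev μ b| +
        (if a = none ∧ b = none then 1 / 16 else 0) := by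
      unfold cc
      refine (abs_add_le _ _).trans ?_
      rw [abs_mul]
      refine add_le_add (le_refl _) ?_
      split_ifs
      · rw [abs_of_nonneg (by norm_num)]
      · rw [abs_zero]
    calc |cc μ (a, b)| * ∑ n ∈ range (dd (a, b)), VV v (a, b).1 n * VV v (a, b).2 n
        ≤ |cc μ (a, b)| * (SS v a * SS v b) := mul_le_mul_of_nonneg_left h3 (abs_nonneg _)
      _ ≤ (|ev μ a| * |ev μ b| + (if a = none ∧ b = none then 1 / 16 else 0)) *
          (SS v a * SS v b) := mul_le_mul_of_nonneg_right h4 hpos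
      _ = _ := by split_ifs <;> ring
  refine (Finset.sum_le_sum fun a ha => Finset.sum_le_sum fun b hb => h1 a ha b hb).trans ?_
  simp_rw [Finset.sum_add_distrib]
  rw [sum_ite_none (fun a b => 1 / 16 * (SS v a * SS v b)), ← Finset.sum_mul_sum,
    Finset.sum_insertNone]
  have h5 : |ev μ none| * SS v none = 1 := by
    show |(1 : ℝ)| * 1 = 1
    norm_num
  have hY0 : (2 : ℝ) ≤ Y := by exact_mod_cast hY2
  have h6 : ∑ p ∈ B, |ev μ (some p)| * SS v (some p) ≤ (Y : ℝ) ^ 2 / 16 := by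
    have hcard : (B.card : ℝ) ≤ Y := by
      have : B ⊆ Finset.Icc 1 Y := fun p hp =>
        Finset.mem_Icc.2 ⟨(hB p hp).pos, hY p hp⟩
      have h7 := Finset.card_le_card this
      rw [Nat.card_Icc] at h7
      have h8 : B.card ≤ Y := by omega
      exact_mod_cast h8
    calc ∑ p ∈ B, |ev μ (some p)| * SS v (some p) ≤ ∑ p ∈ B, (Y : ℝ) / 16 := by
          refine Finset.sum_le_sum fun p hp => ?_
          have h7 : |ev μ (some p)| ≤ 1 / 16 := by
            show |-(1 / μ)| ≤ 1 / 16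
            rw [abs_neg, abs_of_pos (by positivity)]
            exact one_div_le_one_div_of_le (by norm_num) h16
          have h8 : SS v (some p) ≤ Y := by
            show ∑ n ∈ range p, v p n ≤ Y
            calc ∑ n ∈ range p, v p n ≤ ∑ n ∈ range p, (1 : ℝ) :=
                  Finset.sum_le_sum fun n _ => by
                    rcases h01 p n with h | h <;> rw [h]
                    norm_num
              _ = p := by simp
              _ ≤ Y := by exact_mod_cast hY p hp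
          have h9 : 0 ≤ SS v (some p) :=
            le_trans zero_le_one (hs p hp)
          calc |ev μ (some p)| * SS v (some p) ≤ 1 / 16 * Y :=
                mul_le_mul h7 h8 h9 (by norm_num)
            _ = Y / 16 := by ring
      _ = B.card * ((Y : ℝ) / 16) := by rw [Finset.sum_const, nsmul_eq_mul]
      _ ≤ Y * ((Y : ℝ) / 16) := mul_le_mul_of_nonneg_right hcard (by positivity)
      _ = (Y : ℝ) ^ 2 / 16 := by ring
  have h10 : 0 ≤ ∑ p ∈ B, |ev μ (some p)| * SS v (some p) :=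
    Finset.sum_nonneg fun p hp => mul_nonneg (abs_nonneg _)
      (le_trans zero_le_one (hs p hp))
  rw [h5]
  have h11 : (1 : ℝ) / 16 * (SS v none * SS v none) = 1 / 16 := by
    show (1 : ℝ) / 16 * (1 * 1) = 1 / 16
    norm_num
  rw [h11]
  set t := ∑ p ∈ B, |ev μ (some p)| * SS v (some p) with ht
  have hYY : (4 : ℝ) ≤ (Y : ℝ) ^ 2 := by nlinarith
  have h12 : (1 + t) * (1 + t) ≤ (1 + (Y : ℝ) ^ 2 / 16) * (1 + (Y : ℝ) ^ 2 / 16) := by
    nlinarith
  have h13 : (Y : ℝ) ^ 4 = (Y : ℝ) ^ 2 * (Y : ℝ) ^ 2 := by ring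
  rw [h13]
  nlinarith

end block

/-- The product of the block polynomials over an interval. -/
theorem block_sum {R : ℕ} (B : Fin R → Finset ℕ) (v : ℕ → ℕ → ℝ) (μ : Fin R → ℝ)
    (hB : ∀ i, ∀ p ∈ B i, p.Prime) (hdisj : ∀ i j, i ≠ j → Disjoint (B i) (B j))
    (h01 : ∀ p n, v p n = 0 ∨ v p n = 1) (hper : ∀ i, ∀ p ∈ B i, Function.Periodic (v p) p)
    (hs : ∀ i, ∀ p ∈ B i, 1 ≤ ∑ n ∈ range p, v p n)
    (hμ : ∀ i, μ i = ∑ p ∈ B i, (∑ n ∈ range p, v p n) / p) (h16 : ∀ i, 16 ≤ μ i)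
    {Y : ℕ} (hY : ∀ i, ∀ p ∈ B i, p ≤ Y) (hY2 : 2 ≤ Y) (x H : ℕ) :
    ∑ n ∈ Ico x (x + H), ∏ i, (1 / 16 + (1 - (∑ p ∈ B i, v p n) / μ i) ^ 2) ≤
      H * (1 / 8) ^ R + ((Y : ℝ) ^ 4) ^ R := by
  have hmem : ∀ i, ∀ a ∈ AA (B i), a.1 ∈ insertNone (B i) ∧ a.2 ∈ insertNone (B i) :=
    fun i a ha => Finset.mem_product.1 ha
  have hdvd : ∀ i, ∀ a ∈ AA (B i), dd a ∣ DD a.1 * DD a.2 := by
    intro i a _
    unfold dd
    split_ifs with h
    · exact Dvd.intro _ rfl
    · exact dvd_refl _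
  have hDc : ∀ i j, i ≠ j → ∀ a ∈ insertNone (B i), ∀ b ∈ insertNone (B j),
      (DD a).Coprime (DD b) := by
    intro i j hij a ha b hb
    cases a with
    | none => exact Nat.coprime_one_left _
    | some p =>
      cases b with
      | none => exact Nat.coprime_one_right _
      | some q =>
        have hp := Finset.some_mem_insertNone.1 ha
        have hq := Finset.some_mem_insertNone.1 hb
        refine (Nat.coprime_primes (hB i p hp) (hB j q hq)).2 ?_
        rintro rfl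
        exact Finset.disjoint_left.1 (hdisj i j hij) hp hq
  have h := avg_prod (fun i => AA (B i)) (fun i => cc (μ i))
    (fun _ a n => VV v a.1 n * VV v a.2 n) (fun _ a => dd a) ?_ ?_ ?_ ?_ x H
  · have h1 := (abs_le.1 h).2
    have h2 : ∀ n, ∏ i, ∑ a ∈ AA (B i), cc (μ i) a * (VV v a.1 n * VV v a.2 n) =
        ∏ i, (1 / 16 + (1 - (∑ p ∈ B i, v p n) / μ i) ^ 2) := fun n =>
      Finset.prod_congr rfl fun i _ => block_eval n
    simp_rw [h2] at h1
    have h3 : ∏ i, ∑ a ∈ AA (B i), cc (μ i) a *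
        ((∑ n ∈ range (dd a), VV v a.1 n * VV v a.2 n) / dd a) ≤ (1 / 8 : ℝ) ^ R := by
      have h4 : ∏ _i : Fin R, (1 / 8 : ℝ) = (1 / 8) ^ R := by simp
      rw [← h4]
      refine Finset.prod_le_prod (fun i _ => ?_) fun i _ => ?_
      · exact (block_mean (hB i) h01 (hper i) (hμ i) (h16 i)).1
      · exact (block_mean (hB i) h01 (hper i) (hμ i) (h16 i)).2
    have h5 : ∏ i, ∑ a ∈ AA (B i), |cc (μ i) a| *
        ∑ n ∈ range (dd a), VV v a.1 n * VV v a.2 n ≤ ((Y : ℝ) ^ 4) ^ R := by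
      have h4 : ∏ _i : Fin R, ((Y : ℝ) ^ 4) = ((Y : ℝ) ^ 4) ^ R := by simp
      rw [← h4]
      refine Finset.prod_le_prod (fun i _ => ?_) fun i _ => ?_
      · exact (block_err (hB i) h01 (hper i) (hs i) (h16 i) (hY i) hY2).1
      · exact (block_err (hB i) h01 (hper i) (hs i) (h16 i) (hY i) hY2).2
    have h6 : (H : ℝ) * ∏ i, ∑ a ∈ AA (B i), cc (μ i) a *
        ((∑ n ∈ range (dd a), VV v a.1 n * VV v a.2 n) / dd a) ≤ H * (1 / 8 : ℝ) ^ R :=
      mul_le_mul_of_nonneg_left h3 (Nat.cast_nonneg _)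
    linarith
  · intro i a ha
    unfold dd
    obtain ⟨h1, h2⟩ := hmem i a ha
    split_ifs
    · exact DD_pos (hB i) h1
    · exact Nat.mul_pos (DD_pos (hB i) h1) (DD_pos (hB i) h2)
  · intro i j hij a ha b hb
    obtain ⟨h1, h2⟩ := hmem i a ha
    obtain ⟨h3, h4⟩ := hmem j b hb
    refine Nat.Coprime.coprime_dvd_left (hdvd i a ha)
      (Nat.Coprime.coprime_dvd_right (hdvd j b hb) ?_)
    exact Nat.Coprime.mul_left (Nat.Coprime.mul_right (hDc i j hij _ h1 _ h3)
      (hDc i j hij _ h1 _ h4)) (Nat.Coprime.mul_right (hDc i j hij _ h2 _ h3)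
      (hDc i j hij _ h2 _ h4))
  · intro i a ha
    obtain ⟨h1, h2⟩ := hmem i a ha
    intro n
    show VV v a.1 (n + dd a) * VV v a.2 (n + dd a) = VV v a.1 n * VV v a.2 n
    unfold dd
    have p1 := VV_periodic (hper i) h1
    have p2 := VV_periodic (hper i) h2
    split_ifs with hab
    · rw [p1 n, ← hab]
      rw [p1 n]
    · have e1 : VV v a.1 (n + DD a.1 * DD a.2) = VV v a.1 n := by
        have := p1.nat_mul (DD a.2) n
        rw [mul_comm (DD a.1)]
        exact this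
      have e2 : VV v a.2 (n + DD a.1 * DD a.2) = VV v a.2 n := p2.nat_mul (DD a.1) n
      rw [e1, e2]
  · intro i a n
    exact mul_nonneg (VV_nonneg h01 _ _) (VV_nonneg h01 _ _)

/-- Integers with few hits are rare. -/
theorem count_few {r : ℕ} (B : Fin (2 * r) → Finset ℕ) (v : ℕ → ℕ → ℝ) (P : Finset ℕ)
    (hBP : ∀ i, B i ⊆ P) (hP : ∀ p ∈ P, p.Prime)
    (hdisj : ∀ i j, i ≠ j → Disjoint (B i) (B j))
    (h01 : ∀ p n, v p n = 0 ∨ v p n = 1) (hper : ∀ p ∈ P, Function.Periodic (v p) p)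
    (hs : ∀ p ∈ P, 1 ≤ ∑ n ∈ range p, v p n)
    (h16 : ∀ i, 16 ≤ ∑ p ∈ B i, (∑ n ∈ range p, v p n) / p)
    {Y : ℕ} (hY : ∀ p ∈ P, p ≤ Y) (hY2 : 2 ≤ Y) (x H : ℕ) (E : Finset ℕ)
    (hE : E ⊆ Ico x (x + H)) (hEr : ∀ n ∈ E, ∑ p ∈ P, v p n ≤ r) :
    (E.card : ℝ) ≤ H * (1 / 4) ^ r + (16 * (Y : ℝ) ^ 8) ^ r := by
  classical
  have h := block_sum B v (fun i => ∑ p ∈ B i, (∑ n ∈ range p, v p n) / p)
    (fun i p hp => hP p (hBP i hp)) hdisj h01 (fun i p hp => hper p (hBP i hp))
    (fun i p hp => hs p (hBP i hp)) (fun i => rfl) h16 (fun i p hp => hY p (hBP i hp)) hY2 x H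
  have h0 : ∀ p n, 0 ≤ v p n := fun p n => by
    rcases h01 p n with h | h <;> rw [h]
    norm_num
  have hlow : ∀ n ∈ E, (1 / 16 : ℝ) ^ r ≤ ∏ i, (1 / 16 + (1 - (∑ p ∈ B i, v p n) /
      ∑ p ∈ B i, (∑ n ∈ range p, v p n) / p) ^ 2) := by
    intro n hn
    set T := (univ : Finset (Fin (2 * r))).filter fun i => ∑ p ∈ B i, v p n ≠ 0 with hT
    have hT1 : (T.card : ℝ) ≤ r := by
      have h1 : (T.card : ℝ) ≤ ∑ i ∈ T, ∑ p ∈ B i, v p n := by
        have h2 : ∑ i ∈ T, (1 : ℝ) ≤ ∑ i ∈ T, ∑ p ∈ B i, v p n := by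
          refine Finset.sum_le_sum fun i hi => ?_
          have h3 : ∑ p ∈ B i, v p n ≠ 0 := (Finset.mem_filter.1 hi).2
          obtain ⟨p, hp, hvp⟩ := Finset.exists_ne_zero_of_sum_ne_zero h3
          have h4 : v p n = 1 := (h01 p n).resolve_left hvp
          rw [← h4]
          exact Finset.single_le_sum (f := fun p => v p n) (fun q _ => h0 q n) hp
        rwa [Finset.sum_const, nsmul_eq_mul, mul_one] at h2
      have h5 : ∑ i ∈ T, ∑ p ∈ B i, v p n ≤ ∑ p ∈ P, v p n := by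
        rw [← Finset.sum_biUnion (fun i _ j _ hij => hdisj i j hij)]
        refine Finset.sum_le_sum_of_subset_of_nonneg ?_ fun q _ _ => h0 q n
        intro p hp
        obtain ⟨i, _, hi⟩ := Finset.mem_biUnion.1 hp
        exact hBP i hi
      exact h1.trans (h5.trans (hEr n hn))
    have hT1' : T.card ≤ r := by exact_mod_cast hT1
    have h6 : ∏ i : Fin (2 * r), (if ∑ p ∈ B i, v p n ≠ 0 then (1 / 16 : ℝ) else 1) =
        (1 / 16) ^ T.card := by
      rw [Finset.prod_ite]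
      simp only [Finset.prod_const, one_pow, mul_one]
      rfl
    calc (1 / 16 : ℝ) ^ r ≤ (1 / 16) ^ T.card :=
          pow_le_pow_of_le_one (by norm_num) (by norm_num) hT1'
      _ = ∏ i : Fin (2 * r), (if ∑ p ∈ B i, v p n ≠ 0 then (1 / 16 : ℝ) else 1) := h6.symm
      _ ≤ _ := by
        refine Finset.prod_le_prod (fun i _ => ?_) fun i _ => ?_
        · split_ifs <;> norm_num
        · split_ifs with h7
          · linarith [sq_nonneg (1 - (∑ p ∈ B i, v p n) /
              ∑ p ∈ B i, (∑ n ∈ range p, v p n) / p)]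
          · push Not at h7
            rw [h7]
            norm_num
  have h7 : (E.card : ℝ) * (1 / 16) ^ r ≤ ∑ n ∈ Ico x (x + H),
      ∏ i, (1 / 16 + (1 - (∑ p ∈ B i, v p n) /
      ∑ p ∈ B i, (∑ n ∈ range p, v p n) / p) ^ 2) := by
    calc (E.card : ℝ) * (1 / 16) ^ r = ∑ n ∈ E, (1 / 16 : ℝ) ^ r := by
          rw [Finset.sum_const, nsmul_eq_mul]
      _ ≤ ∑ n ∈ E, ∏ i, (1 / 16 + (1 - (∑ p ∈ B i, v p n) /
      ∑ p ∈ B i, (∑ n ∈ range p, v p n) / p) ^ 2) := Finset.sum_le_sum hlow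
      _ ≤ _ := Finset.sum_le_sum_of_subset_of_nonneg hE fun n _ _ =>
          Finset.prod_nonneg fun i _ => by positivity
  have h8 := h7.trans h
  have h9 : (16 : ℝ) ^ r * (1 / 16) ^ r = 1 := by
    rw [← mul_pow]
    norm_num
  have h10 : (E.card : ℝ) ≤ 16 ^ r * (H * (1 / 8) ^ (2 * r) + ((Y : ℝ) ^ 4) ^ (2 * r)) := by
    calc (E.card : ℝ) = 16 ^ r * (E.card * (1 / 16) ^ r) := by
          rw [mul_left_comm, h9, mul_one]
      _ ≤ _ := mul_le_mul_of_nonneg_left h8 (by positivity)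
  have h11 : (16 : ℝ) ^ r * (H * (1 / 8) ^ (2 * r) + ((Y : ℝ) ^ 4) ^ (2 * r)) =
      H * (1 / 4) ^ r + (16 * (Y : ℝ) ^ 8) ^ r := by
    have h12 : (16 : ℝ) ^ r * (H * (1 / 8) ^ (2 * r)) = H * (1 / 4) ^ r := by
      have h13 : ((1 : ℝ) / 4) ^ r = 16 ^ r * ((1 / 8) ^ 2) ^ r := by
        rw [← mul_pow]
        norm_num
      rw [h13, pow_mul]
      ring
    have h14 : (16 : ℝ) ^ r * ((Y : ℝ) ^ 4) ^ (2 * r) = (16 * (Y : ℝ) ^ 8) ^ r := by
      rw [mul_pow, ← pow_mul, ← pow_mul]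
      congr 2
      ring
    rw [mul_add, h12, h14]
  rw [h11] at h10
  exact h10

theorem exists_block (w : ℕ → ℝ) (P : Finset ℕ) (hw1 : ∀ p ∈ P, w p ≤ 1)
    (h : 16 ≤ ∑ p ∈ P, w p) : ∃ B ⊆ P, 16 ≤ ∑ p ∈ B, w p ∧ ∑ p ∈ B, w p ≤ 17 := by
  induction P using Finset.induction_on with
  | empty =>
    rw [Finset.sum_empty] at h
    norm_num at h
  | insert a s ha ih =>
    by_cases h1 : 16 ≤ ∑ p ∈ s, w p
    · obtain ⟨B, hB, h2⟩ := ih (fun p hp => hw1 p (mem_insert_of_mem hp)) h1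
      exact ⟨B, hB.trans (Finset.subset_insert _ _), h2⟩
    · push Not at h1
      refine ⟨insert a s, le_refl _, h, ?_⟩
      rw [Finset.sum_insert ha]
      linarith [hw1 a (mem_insert_self _ _)]

theorem exists_blocks (w : ℕ → ℝ) (R : ℕ) : ∀ P : Finset ℕ, (∀ p ∈ P, w p ≤ 1) →
    17 * (R : ℝ) ≤ ∑ p ∈ P, w p →
    ∃ B : Fin R → Finset ℕ, (∀ i, B i ⊆ P) ∧ (∀ i j, i ≠ j → Disjoint (B i) (B j)) ∧
      ∀ i, 16 ≤ ∑ p ∈ B i, w p := by
  induction R with
  | zero =>
    intro P _ _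
    exact ⟨fun i => i.elim0, fun i => i.elim0, fun i => i.elim0, fun i => i.elim0⟩
  | succ R ih =>
    intro P hw1 h
    push_cast at h
    have hR : (0 : ℝ) ≤ R := Nat.cast_nonneg R
    obtain ⟨B0, hB0, h1, h2⟩ := exists_block w P hw1 (by linarith)
    have h3 : ∑ p ∈ P \ B0, w p + ∑ p ∈ B0, w p = ∑ p ∈ P, w p := Finset.sum_sdiff hB0
    obtain ⟨B, hB1, hB2, hB3⟩ := ih (P \ B0) (fun p hp => hw1 p (Finset.mem_sdiff.1 hp).1)
      (by linarith)
    refine ⟨Fin.cons B0 B, ?_, ?_, ?_⟩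
    · intro i
      refine Fin.cases ?_ (fun j => ?_) i
      · exact hB0
      · exact (hB1 j).trans Finset.sdiff_subset
    · have hd : ∀ j, Disjoint B0 (B j) := fun j =>
        Finset.disjoint_of_subset_right (hB1 j) Finset.disjoint_sdiff
      intro i j
      refine Fin.cases ?_ (fun i' => ?_) i
      · refine Fin.cases ?_ (fun j' => ?_) j
        · intro hne
          exact absurd rfl hne
        · intro _
          exact hd j'
      · refine Fin.cases ?_ (fun j' => ?_) j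
        · intro _
          exact (hd i').symm
        · intro hne
          exact hB2 i' j' fun hij => hne (by rw [hij])
    · intro i
      refine Fin.cases ?_ (fun j => ?_) i
      · exact h1
      · exact hB3 j

end Pool.Agent.Helper73.OmegaShift
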