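import Mathlib
import Pool.Agent.Helper73.OmegaShift.Block
import Pool.Agent.GBQ.RhoLow
import Pool.Agent.MT.Dim

set_option autoImplicit false

/-!
Integers `n` such that all `n + k`, `3 ≤ k ≤ J + 2`, have at most `M` prime factors.
-/

namespace Pool.Agent.Helper73.OmegaShift

open Finset

open Classical in
/-- `1` if the prime `p` divides one of the numbers `n + 3, …, n + J + 2` -/
noncomputable def hit (J p n : ℕ) : ℝ := if ∃ k ∈ Icc 3 (J + 2), p ∣ n + k then 1 else 0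

theorem hit_01 (J p n : ℕ) : hit J p n = 0 ∨ hit J p n = 1 := by
  unfold hit
  split_ifs
  · exact Or.inr rfl
  · exact Or.inl rfl

theorem hit_nonneg (J p n : ℕ) : 0 ≤ hit J p n := by
  rcases hit_01 J p n with h | h <;> rw [h]
  norm_num

theorem hit_le_one (J p n : ℕ) : hit J p n ≤ 1 := by
  rcases hit_01 J p n with h | h <;> rw [h]
  norm_num

theorem hit_periodic (J p : ℕ) : Function.Periodic (hit J p) p := by
  intro n
  have h : (∃ k ∈ Icc 3 (J + 2), p ∣ (n + p) + k) ↔ ∃ k ∈ Icc 3 (J + 2), p ∣ n + k := by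
    refine exists_congr fun k => and_congr_right fun _ => ?_
    have : n + p + k = (n + k) + p := by ring
    rw [this]
    exact (Nat.dvd_add_left (dvd_refl p))
  unfold hit
  by_cases hh : ∃ k ∈ Icc 3 (J + 2), p ∣ n + k
  · rw [if_pos hh, if_pos (h.2 hh)]
  · rw [if_neg hh, if_neg fun h' => hh (h.1 h')]

theorem le_sum_hit {J p : ℕ} (hp : J < p) : (J : ℝ) ≤ ∑ n ∈ range p, hit J p n := by
  classical
  have hp0 : 0 < p := by omega
  have hdvd : ∀ k : ℕ, p ∣ ((p - 1) * k) % p + k := by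
    intro k
    have h1 : ((p - 1) * k) % p + k ≡ (p - 1) * k + k [MOD p] :=
      Nat.ModEq.add_right _ (Nat.mod_modEq _ _)
    have h2 : (p - 1) * k + k = p * k := by
      obtain ⟨q, rfl⟩ : ∃ q, p = q + 1 := ⟨p - 1, by omega⟩
      simp
      ring
    rw [h2] at h1
    exact (Nat.modEq_zero_iff_dvd.1 (h1.trans (Nat.modEq_zero_iff_dvd.2 (Dvd.intro _ rfl))))
  have hinj : Set.InjOn (fun k => ((p - 1) * k) % p) (Icc 3 (J + 2) : Finset ℕ) := by
    intro k hk l hl hkl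
    rw [Finset.mem_coe, Finset.mem_Icc] at hk hl
    have h1 := hdvd k
    have h2 := hdvd l
    have h3 : ((p - 1) * k) % p = ((p - 1) * l) % p := hkl
    rw [h3] at h1
    have h4 : (((p - 1) * l) % p + k) ≡ (((p - 1) * l) % p + l) [MOD p] :=
      (Nat.modEq_zero_iff_dvd.2 h1).trans (Nat.modEq_zero_iff_dvd.2 h2).symm
    have h5 : k ≡ l [MOD p] := Nat.ModEq.add_left_cancel' _ h4
    have h6 : (k - 3) ≡ (l - 3) [MOD p] := by
      have h7 : (k - 3) + 3 ≡ (l - 3) + 3 [MOD p] := by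
        rw [Nat.sub_add_cancel hk.1, Nat.sub_add_cancel hl.1]
        exact h5
      exact Nat.ModEq.add_right_cancel' 3 h7
    have h8 := Nat.ModEq.eq_of_lt_of_lt h6 (by omega) (by omega)
    omega
  have hsub : (Icc 3 (J + 2)).image (fun k => ((p - 1) * k) % p) ⊆
      (range p).filter fun n => ∃ k ∈ Icc 3 (J + 2), p ∣ n + k := by
    intro n hn
    obtain ⟨k, hk, rfl⟩ := Finset.mem_image.1 hn
    rw [Finset.mem_filter, Finset.mem_range]
    exact ⟨Nat.mod_lt _ hp0, k, hk, hdvd k⟩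
  have hcard := Finset.card_le_card hsub
  rw [Finset.card_image_of_injOn hinj, Nat.card_Icc] at hcard
  have h1 : ∑ n ∈ range p, hit J p n =
      ((range p).filter fun n => ∃ k ∈ Icc 3 (J + 2), p ∣ n + k).card := by
    unfold hit
    rw [← Finset.sum_filter, Finset.sum_const, nsmul_eq_mul, mul_one]
  rw [h1]
  have h2 : J ≤ ((range p).filter fun n => ∃ k ∈ Icc 3 (J + 2), p ∣ n + k).card := by omega
  exact_mod_cast h2

theorem sum_hit_le {J M n : ℕ} (P : Finset ℕ) (hP : ∀ p ∈ P, p.Prime)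
    (h : ∀ k ∈ Icc 3 (J + 2), (n + k).primeFactors.card ≤ M) :
    ∑ p ∈ P, hit J p n ≤ ((J * M : ℕ) : ℝ) := by
  classical
  have h1 : ∑ p ∈ P, hit J p n = (P.filter fun p => ∃ k ∈ Icc 3 (J + 2), p ∣ n + k).card := by
    unfold hit
    rw [← Finset.sum_filter, Finset.sum_const, nsmul_eq_mul, mul_one]
  have h2 : (P.filter fun p => ∃ k ∈ Icc 3 (J + 2), p ∣ n + k) ⊆
      (Icc 3 (J + 2)).biUnion fun k => (n + k).primeFactors := by
    intro p hp
    rw [Finset.mem_filter] at hp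
    obtain ⟨hpP, k, hk, hd⟩ := hp
    rw [Finset.mem_biUnion]
    refine ⟨k, hk, ?_⟩
    rw [Finset.mem_Icc] at hk
    exact Nat.mem_primeFactors.2 ⟨hP p hpP, hd, by omega⟩
  have h3 := (Finset.card_le_card h2).trans
    (Finset.card_biUnion_le_card_mul _ _ M fun k hk => h k hk)
  rw [Nat.card_Icc] at h3
  rw [h1]
  have h4 : J + 2 + 1 - 3 = J := by omega
  rw [h4] at h3
  exact_mod_cast h3

/-- Few integers in an interval of length `H` have only numbers with at most `M` prime factors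
in the window `n + 3, …, n + J + 2`. -/
theorem core {J M Y : ℕ} (hJ : 1 ≤ J) (hY2 : 2 ≤ Y)
    (hmass : 34 * (M : ℝ) ≤ ∑ p ∈ (Ioc J Y).filter Nat.Prime, 1 / (p : ℝ)) (x H : ℕ)
    (E : Finset ℕ) (hE : E ⊆ Ico x (x + H))
    (hEM : ∀ n ∈ E, ∀ k ∈ Icc 3 (J + 2), (n + k).primeFactors.card ≤ M) :
    (E.card : ℝ) ≤ H * (1 / 4) ^ (J * M) + (16 * (Y : ℝ) ^ 8) ^ (J * M) := by
  have hJ' : (1 : ℝ) ≤ J := by exact_mod_cast hJ
  set P := (Ioc J Y).filter Nat.Prime with hPdef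
  have hPm : ∀ p ∈ P, J < p ∧ p ≤ Y ∧ p.Prime := by
    intro p hp
    rw [hPdef, Finset.mem_filter, Finset.mem_Ioc] at hp
    exact ⟨hp.1.1, hp.1.2, hp.2⟩
  have hw1 : ∀ p ∈ P, (∑ n ∈ range p, hit J p n) / (p : ℝ) ≤ 1 := by
    intro p hp
    have hp0 : (0 : ℝ) < p := by exact_mod_cast (hPm p hp).2.2.pos
    rw [div_le_one hp0]
    calc ∑ n ∈ range p, hit J p n ≤ ∑ n ∈ range p, (1 : ℝ) :=
          Finset.sum_le_sum fun n _ => hit_le_one J p n
      _ = p := by simp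
  have hsum : 17 * ((2 * (J * M) : ℕ) : ℝ) ≤
      ∑ p ∈ P, (∑ n ∈ range p, hit J p n) / (p : ℝ) := by
    calc 17 * ((2 * (J * M) : ℕ) : ℝ) = J * (34 * (M : ℝ)) := by push_cast; ring
      _ ≤ J * ∑ p ∈ P, 1 / (p : ℝ) := mul_le_mul_of_nonneg_left hmass (by linarith)
      _ = ∑ p ∈ P, (J : ℝ) / p := by
          rw [Finset.mul_sum]
          refine Finset.sum_congr rfl fun p _ => by ring
      _ ≤ _ := Finset.sum_le_sum fun p hp => by
          have hp0 : (0 : ℝ) < p := by exact_mod_cast (hPm p hp).2.2.pos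
          exact div_le_div_of_nonneg_right (le_sum_hit (hPm p hp).1) hp0.le
  obtain ⟨B, hB1, hB2, hB3⟩ := exists_blocks
    (fun p => (∑ n ∈ range p, hit J p n) / (p : ℝ)) (2 * (J * M)) P hw1 hsum
  refine count_few (r := J * M) B (hit J) P hB1 (fun p hp => (hPm p hp).2.2) hB2
    (hit_01 J) (fun p _ => hit_periodic J p)
    (fun p hp => hJ'.trans (le_sum_hit (hPm p hp).1)) hB3 (fun p hp => (hPm p hp).2.1) hY2
    x H E hE fun n hn => ?_
  exact sum_hit_le P (fun p hp => (hPm p hp).2.2) (hEM n hn)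

/-! ### Mertens -/

theorem recip_upper (z : ℕ) (hz : 3 ≤ z) :
    ∑ p ∈ (Icc 1 z).filter Nat.Prime, 1 / (p : ℝ) ≤ Real.log (Real.log z) + 8 := by
  have h1 := Pool.Agent.GBQ.rhl_recip z hz
  have h2 : (Icc 1 z).filter Nat.Prime ⊆ insert 2 ((Ioc 2 z).filter Nat.Prime) := by
    intro p hp
    rw [mem_filter, mem_Icc] at hp
    rw [mem_insert, mem_filter, mem_Ioc]
    have := hp.2.two_le
    rcases Nat.lt_or_ge 2 p with h | h
    · exact Or.inr ⟨⟨h, hp.1.2⟩, hp.2⟩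
    · exact Or.inl (by omega)
  calc ∑ p ∈ (Icc 1 z).filter Nat.Prime, 1 / (p : ℝ)
      ≤ ∑ p ∈ insert 2 ((Ioc 2 z).filter Nat.Prime), 1 / (p : ℝ) :=
        Finset.sum_le_sum_of_subset_of_nonneg h2 fun _ _ _ => by positivity
    _ = 1 / ((2 : ℕ) : ℝ) + ∑ p ∈ (Ioc 2 z).filter Nat.Prime, 1 / (p : ℝ) :=
        Finset.sum_insert (by simp)
    _ ≤ _ := by
        rw [Finset.sum_filter]
        push_cast
        linarith

theorem tel_sum (N : ℕ) (hN : 2 ≤ N) :
    ∑ n ∈ Ico 2 N, 1 / ((n : ℝ) * (n - 1)) ≤ 1 - 1 / ((N : ℝ) - 1) := by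
  induction N, hN using Nat.le_induction with
  | base =>
    rw [Finset.Ico_self, Finset.sum_empty]
    norm_num
  | succ n hn ih =>
    rw [Finset.sum_Ico_succ_top (by omega)]
    have hn' : (2 : ℝ) ≤ n := by exact_mod_cast hn
    have h1 : 1 / ((n : ℝ) * (n - 1)) = 1 / ((n : ℝ) - 1) - 1 / n := by
      have : (n : ℝ) - 1 ≠ 0 := by linarith
      field_simp
      ring
    push_cast
    rw [h1]
    have h2 : (n : ℝ) + 1 - 1 = n := by ring
    rw [h2]
    linarith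

theorem recip_lower (z : ℕ) (hz : 3 ≤ z) :
    Real.log (Real.log z) - 1 ≤ ∑ p ∈ (Icc 1 z).filter Nat.Prime, 1 / (p : ℝ) := by
  have h1 := Pool.Agent.MT.DimAux.log_le_prod (N := z) (by omega)
  have hz' : (3 : ℝ) ≤ z := by exact_mod_cast hz
  have hlog : 0 < Real.log z := Real.log_pos (by linarith)
  have hpos : ∀ p ∈ Pool.Agent.Helper90.Straus.pr 2 z, 0 < (1 - 1 / (p : ℝ))⁻¹ := by
    intro p hp
    have h2 := (Pool.Agent.Helper90.Straus.mem_pr.1 hp).2
    have h3 : (2 : ℝ) ≤ p := by exact_mod_cast h2.two_le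
    have h4 : 1 / (p : ℝ) ≤ 1 / 2 := one_div_le_one_div_of_le (by norm_num) h3
    have h5 : 0 < 1 - 1 / (p : ℝ) := by linarith
    positivity
  have h2 := Real.log_le_log hlog h1
  rw [Real.log_prod fun p hp => (hpos p hp).ne'] at h2
  have h3 : ∑ p ∈ Pool.Agent.Helper90.Straus.pr 2 z, Real.log (1 - 1 / (p : ℝ))⁻¹ ≤
      ∑ p ∈ Pool.Agent.Helper90.Straus.pr 2 z, (1 / (p : ℝ) + 1 / ((p : ℝ) * (p - 1))) := by
    refine Finset.sum_le_sum fun p hp => ?_
    have h4 := (Pool.Agent.Helper90.Straus.mem_pr.1 hp).2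
    have h5 : (2 : ℝ) ≤ p := by exact_mod_cast h4.two_le
    refine (Real.log_le_sub_one_of_pos (hpos p hp)).trans (le_of_eq ?_)
    have h6 : (p : ℝ) - 1 ≠ 0 := by linarith
    have h7 : (p : ℝ) ≠ 0 := by linarith
    have h8 : (1 - 1 / (p : ℝ))⁻¹ = p / (p - 1) := by
      rw [show 1 - 1 / (p : ℝ) = (p - 1) / p by field_simp, inv_div]
    rw [h8]
    field_simp
    ring
  rw [Finset.sum_add_distrib] at h3
  have h9 : ∑ p ∈ Pool.Agent.Helper90.Straus.pr 2 z, 1 / (p : ℝ) ≤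
      ∑ p ∈ (Icc 1 z).filter Nat.Prime, 1 / (p : ℝ) := by
    refine Finset.sum_le_sum_of_subset_of_nonneg ?_ fun _ _ _ => by positivity
    intro p hp
    obtain ⟨⟨h4, h5⟩, h6⟩ := Pool.Agent.Helper90.Straus.mem_pr.1 hp
    rw [mem_filter, mem_Icc]
    exact ⟨⟨by omega, by omega⟩, h6⟩
  have h10 : ∑ p ∈ Pool.Agent.Helper90.Straus.pr 2 z, 1 / ((p : ℝ) * (p - 1)) ≤ 1 := by
    have h11 : ∑ p ∈ Pool.Agent.Helper90.Straus.pr 2 z, 1 / ((p : ℝ) * (p - 1)) ≤
        ∑ n ∈ Ico 2 z, 1 / ((n : ℝ) * (n - 1)) := by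
      refine Finset.sum_le_sum_of_subset_of_nonneg ?_ fun n hn _ => ?_
      · intro p hp
        obtain ⟨⟨h4, h5⟩, h6⟩ := Pool.Agent.Helper90.Straus.mem_pr.1 hp
        exact Finset.mem_Ico.2 ⟨h4, h5⟩
      · have h12 : (2 : ℝ) ≤ n := by exact_mod_cast (Finset.mem_Ico.1 hn).1
        have h13 : 0 < (n : ℝ) - 1 := by linarith
        positivity
    have h14 := tel_sum z (by omega)
    have h15 : 0 ≤ 1 / ((z : ℝ) - 1) := by
      have : 0 < (z : ℝ) - 1 := by linarith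
      positivity
    linarith
  linarith

theorem mass_lower (J Y : ℕ) (hJ : 3 ≤ J) (hJY : J ≤ Y) :
    Real.log (Real.log Y) - Real.log (Real.log J) - 9 ≤
      ∑ p ∈ (Ioc J Y).filter Nat.Prime, 1 / (p : ℝ) := by
  have h1 := recip_upper J hJ
  have h2 := recip_lower Y (by omega)
  have h3 : (Icc 1 Y).filter Nat.Prime =
      (Icc 1 J).filter Nat.Prime ∪ (Ioc J Y).filter Nat.Prime := by
    ext p
    rw [mem_union, mem_filter, mem_filter, mem_filter, mem_Icc, mem_Icc, mem_Ioc]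
    constructor
    · rintro ⟨⟨h4, h5⟩, h6⟩
      rcases Nat.lt_or_ge J p with h7 | h7
      · exact Or.inr ⟨⟨h7, h5⟩, h6⟩
      · exact Or.inl ⟨⟨h4, h7⟩, h6⟩
    · rintro (⟨⟨h4, h5⟩, h6⟩ | ⟨⟨h4, h5⟩, h6⟩)
      · exact ⟨⟨h4, by omega⟩, h6⟩
      · exact ⟨⟨by omega, h5⟩, h6⟩
  have h4 : Disjoint ((Icc 1 J).filter Nat.Prime) ((Ioc J Y).filter Nat.Prime) := by
    rw [Finset.disjoint_left]
    intro p hp hq
    rw [mem_filter, mem_Icc] at hp
    rw [mem_filter, mem_Ioc] at hq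
    omega
  rw [h3, Finset.sum_union h4] at h2
  linarith

end Pool.Agent.Helper73.OmegaShift
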