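import Mathlib
import Pool.Agent.Helper73.OmegaShift.Core
import Pool.Agent.Helper73.OmegaShift.Bdd

set_option autoImplicit false

/-!
In every interval of length `H` all but `H exp (-(log H)^(1-ε))` integers `n` satisfy
`F n > c log log log H`.
-/

namespace Pool.Agent.Helper73.OmegaShift

open Finset Filter
open scoped ArithmeticFunction.omega

/-- the inequalities needed for `L = log H` -/
structure Good (ε L : ℝ) : Prop where
  e1 : 3 ≤ L ^ (1 - ε)
  e3 : 40 * Real.log (Real.log L) ≤ Real.sqrt (Real.log L)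
  e3' : 1 ≤ Real.log (Real.log L)
  e4 : Real.log (Real.log L) + 40 ≤ ε / 4 * Real.log L
  e7 : 2 * Real.log L ≤ L ^ (ε / 2)
  e8 : L ^ (1 - ε) + 1 ≤ L / 2
  e10 : 8 ≤ L

theorem good_ev {ε : ℝ} (h0 : 0 < ε) (h1 : ε < 1) : ∀ᶠ L : ℝ in atTop, Good ε L := by
  have t1 := (tendsto_rpow_atTop (show (0 : ℝ) < 1 - ε by linarith)).eventually_ge_atTop 3
  have t2 := (tendsto_rpow_atTop h0).eventually_ge_atTop 4
  have t3 : ∀ᶠ x : ℝ in atTop, 40 * Real.log x ≤ Real.sqrt x := by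
    have h := (isLittleO_log_rpow_atTop (show (0 : ℝ) < 1 / 2 by norm_num)).bound
      (show (0 : ℝ) < 1 / 40 by norm_num)
    filter_upwards [h, eventually_ge_atTop 1] with x hx hx1
    rw [Real.norm_of_nonneg (Real.log_nonneg hx1),
      Real.norm_of_nonneg (Real.rpow_nonneg (by linarith) _)] at hx
    rw [Real.sqrt_eq_rpow]
    linarith
  have t4 : ∀ᶠ x : ℝ in atTop, Real.log x + 40 ≤ ε / 4 * x := by
    have h := Real.isLittleO_log_id_atTop.bound (show (0 : ℝ) < ε / 8 by linarith)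
    filter_upwards [h, eventually_ge_atTop 1, eventually_ge_atTop (320 / ε)] with x hx hx1 hx2
    rw [Real.norm_of_nonneg (Real.log_nonneg hx1)] at hx
    have h2 : ‖id x‖ = x := Real.norm_of_nonneg (by show 0 ≤ x; linarith)
    rw [h2] at hx
    rw [div_le_iff₀ h0] at hx2
    linarith
  have t7 : ∀ᶠ x : ℝ in atTop, 2 * Real.log x ≤ x ^ (ε / 2) := by
    have h := (isLittleO_log_rpow_atTop (show (0 : ℝ) < ε / 2 by linarith)).bound
      (show (0 : ℝ) < 1 / 2 by norm_num)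
    filter_upwards [h, eventually_ge_atTop 1] with x hx hx1
    rw [Real.norm_of_nonneg (Real.log_nonneg hx1),
      Real.norm_of_nonneg (Real.rpow_nonneg (by linarith) _)] at hx
    linarith
  have t3' : ∀ᶠ x : ℝ in atTop, 1 ≤ Real.log x :=
    Real.tendsto_log_atTop.eventually_ge_atTop 1
  filter_upwards [t1, t2, Real.tendsto_log_atTop.eventually t3,
    Real.tendsto_log_atTop.eventually t3', Real.tendsto_log_atTop.eventually t4, t7,
    eventually_ge_atTop 8] with L a1 a2 a3 a3' a4 a7 a10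
  refine ⟨a1, a3, a3', a4, a7, ?_, a10⟩
  have hL : 0 < L := by linarith
  have h2 : L ^ (1 - ε) * L ^ ε = L := by
    rw [← Real.rpow_add hL]
    simp
  have h3 : 0 ≤ L ^ (1 - ε) := Real.rpow_nonneg hL.le _
  nlinarith

/-- `u / log u ≤ 2 ℓ / log ℓ`, in the form needed -/
theorem ratio_bound {ℓ u : ℝ} (h3 : 40 * Real.log ℓ ≤ Real.sqrt ℓ) (hm : 1 ≤ Real.log ℓ)
    (hℓ : 0 < ℓ) (hu1 : Real.log 3 ≤ u) (hu2 : u ≤ ℓ) :
    0 < Real.log u ∧ Real.log ℓ * u ≤ 2 * ℓ * Real.log u := by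
  have hl2 : (0.69 : ℝ) < Real.log 2 := by linarith [Real.log_two_gt_d9]
  have hl3 : (1.02 : ℝ) ≤ Real.log 3 := by
    have h1 : Real.log 3 = Real.log 2 + Real.log (3 / 2) := by
      rw [← Real.log_mul (by norm_num) (by norm_num)]
      norm_num
    have h2 : 1 - (3 / 2 : ℝ)⁻¹ ≤ Real.log (3 / 2) := Real.one_sub_inv_le_log_of_pos (by norm_num)
    rw [h1]
    norm_num at h2
    linarith
  have hu0 : (1.02 : ℝ) ≤ u := hl3.trans hu1
  have hlu : (1 / 60 : ℝ) ≤ Real.log u := by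
    have h2 : 1 - u⁻¹ ≤ Real.log u := Real.one_sub_inv_le_log_of_pos (by linarith)
    have h4 : u⁻¹ ≤ (1.02 : ℝ)⁻¹ := inv_anti₀ (by norm_num) hu0
    have h5 : (1.02 : ℝ)⁻¹ ≤ 1 - 1 / 60 := by norm_num
    linarith
  refine ⟨by linarith, ?_⟩
  have hs0 : 0 ≤ Real.sqrt ℓ := Real.sqrt_nonneg _
  have hss : Real.sqrt ℓ * Real.sqrt ℓ = ℓ := Real.mul_self_sqrt hℓ.le
  rcases le_or_gt u (Real.sqrt ℓ) with h | h
  · have h7 : (40 * Real.log ℓ) * u ≤ Real.sqrt ℓ * Real.sqrt ℓ :=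
      mul_le_mul h3 h (by linarith) hs0
    rw [hss] at h7
    have h8 : 2 * ℓ * (1 / 60) ≤ 2 * ℓ * Real.log u :=
      mul_le_mul_of_nonneg_left hlu (by linarith)
    linarith
  · have h8 : Real.log (Real.sqrt ℓ) ≤ Real.log u :=
      Real.log_le_log (Real.sqrt_pos.2 hℓ) h.le
    rw [Real.log_sqrt hℓ.le] at h8
    have h9 : Real.log ℓ * u ≤ Real.log ℓ * ℓ := mul_le_mul_of_nonneg_left hu2 (by linarith)
    have h10 : 2 * ℓ * (Real.log ℓ / 2) ≤ 2 * ℓ * Real.log u :=
      mul_le_mul_of_nonneg_left h8 (by linarith)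
    linarith

/-- The theorem for one interval. -/
theorem interval {ε : ℝ} (h0 : 0 < ε) (h1 : ε < 1) {H : ℕ} (hH : 0 < H)
    (G : Good ε (Real.log H)) (x : ℕ) (E : Finset ℕ) (hE : E ⊆ Ico x (x + H))
    (hEF : ∀ n ∈ E, N4a4fba6b.F n ≤ ε / 300 * Real.log (Real.log (Real.log H))) :
    (E.card : ℝ) ≤ H * Real.exp (-(Real.log H) ^ (1 - ε)) := by
  obtain ⟨e1, e3, e3', e4, e7, e8, e10⟩ := G
  set L := Real.log H with hL
  set ℓ := Real.log L with hℓ
  set m := Real.log ℓ with hm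
  set c := ε / 300 with hc
  have hc0 : 0 < c := by rw [hc]; linarith
  have hL0 : 0 < L := by linarith
  have hℓ0 : 0 < ℓ := by
    rcases le_or_gt ℓ 0 with h | h
    · have := mul_nonneg h0.le (show (0 : ℝ) ≤ 1 / 4 by norm_num)
      nlinarith
    · exact h
  have hl2 : Real.log 2 ≤ 0.7 := by linarith [Real.log_two_lt_d9]
  have hl2' : 0.69 ≤ Real.log 2 := by linarith [Real.log_two_gt_d9]
  have hHexp : Real.exp L = H := Real.exp_log (by exact_mod_cast hH)
  -- the parameters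
  set J := ⌈L ^ (1 - ε)⌉₊ with hJ
  have hJ1 : L ^ (1 - ε) ≤ J := Nat.le_ceil _
  have hJ2 : (J : ℝ) < L ^ (1 - ε) + 1 := Nat.ceil_lt_add_one (Real.rpow_nonneg hL0.le _)
  have hJ3 : 3 ≤ J := by
    have : (3 : ℝ) ≤ J := e1.trans hJ1
    exact_mod_cast this
  have hJL : (J : ℝ) + 2 ≤ L := by linarith
  set M := ⌊2 * c * ℓ⌋₊ with hM
  have hcl : 0 ≤ 2 * c * ℓ := by positivity
  have hM1 : (M : ℝ) ≤ 2 * c * ℓ := Nat.floor_le hcl
  have hM2 : 1 ≤ M := by
    refine (Nat.one_le_floor_iff _).2 ?_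
    rw [hc]
    have : 160 ≤ ε * ℓ := by linarith
    linarith
  set Z := L ^ (ε / 2) with hZ
  have hZ2 : 2 * ℓ ≤ Z := e7
  have hℓ1 : 1 ≤ ℓ := by
    by_contra hcon
    push Not at hcon
    have : m ≤ 0 := Real.log_nonpos hℓ0.le hcon.le
    linarith
  set Y := ⌊Real.exp Z⌋₊ with hY
  have hexpZ : L ^ 2 ≤ Real.exp Z := by
    have h2 : Real.exp (2 * ℓ) = L ^ 2 := by
      have h3 : (2 : ℝ) * ℓ = ℓ + ℓ := by ring
      rw [h3, Real.exp_add, hℓ, Real.exp_log hL0]
      ring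
    rw [← h2]
    exact Real.exp_le_exp.2 hZ2
  have hexpZ2 : 2 ≤ Real.exp Z := by nlinarith
  have hY1 : (Y : ℝ) ≤ Real.exp Z := Nat.floor_le (Real.exp_pos _).le
  have hY2 : Real.exp Z < Y + 1 := Nat.lt_floor_add_one _
  have hYL : L ≤ Y := by nlinarith
  have hJY : J ≤ Y := by
    have : (J : ℝ) ≤ Y := by linarith
    exact_mod_cast this
  have hY3 : 2 ≤ Y := by omega
  have hYpos : (0 : ℝ) < Y := by linarith
  have hlogY1 : Real.log Y ≤ Z := by
    have := Real.log_le_log hYpos hY1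
    rwa [Real.log_exp] at this
  have hlogY2 : Z - Real.log 2 ≤ Real.log Y := by
    have h2 : Real.exp Z / 2 ≤ Y := by linarith
    have h3 := Real.log_le_log (by positivity) h2
    rwa [Real.log_div (Real.exp_pos _).ne' (by norm_num), Real.log_exp] at h3
  have hlogY3 : Z / 2 ≤ Real.log Y := by linarith
  have hllY : ε / 2 * ℓ - Real.log 2 ≤ Real.log (Real.log Y) := by
    have h2 : Real.log (Z / 2) = ε / 2 * ℓ - Real.log 2 := by
      rw [Real.log_div (by linarith) (by norm_num), hZ, Real.log_rpow hL0]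
    rw [← h2]
    exact Real.log_le_log (by linarith) hlogY3
  have hJpos : (0 : ℝ) < J := by exact_mod_cast (by omega : 0 < J)
  have hJ3' : (3 : ℝ) ≤ J := by exact_mod_cast hJ3
  have hlogJ : 0 < Real.log J := Real.log_pos (by linarith)
  have hlogJ2 : Real.log J ≤ ℓ := Real.log_le_log hJpos (by linarith)
  have hllJ : Real.log (Real.log J) ≤ m := Real.log_le_log hlogJ hlogJ2
  have hmass : 34 * (M : ℝ) ≤ ∑ p ∈ (Ioc J Y).filter Nat.Prime, 1 / (p : ℝ) := by
    have h2 := mass_lower J Y hJ3 hJY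
    have h3 : 34 * (M : ℝ) ≤ 68 * (c * ℓ) := by linarith
    have h4 : c * ℓ = ε * ℓ / 300 := by rw [hc]; ring
    have h5 : 0 ≤ ε * ℓ := by positivity
    linarith
  -- few prime factors in the window
  have hEM : ∀ n ∈ E, ∀ k ∈ Icc 3 (J + 2), (n + k).primeFactors.card ≤ M := by
    intro n hn k hk
    rw [Finset.mem_Icc] at hk
    have hk3 : (3 : ℝ) ≤ k := by exact_mod_cast hk.1
    have hkL : (k : ℝ) ≤ L := by
      have : (k : ℝ) ≤ ((J + 2 : ℕ) : ℝ) := by exact_mod_cast hk.2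
      push_cast at this
      linarith
    have h2 := (term_le_F n k).trans (hEF n hn)
    unfold term at h2
    obtain ⟨h3, h4⟩ := ratio_bound e3 e3' hℓ0 (Real.log_le_log (by norm_num) hk3)
      (Real.log_le_log (by linarith) hkL)
    set u := Real.log (k : ℝ) with hu
    have hu0 : 0 < u := Real.log_pos (by linarith)
    have h5 : ω (n + k) = (n + k).primeFactors.card := rfl
    rw [h5] at h2
    rw [mul_div_assoc', div_le_iff₀ hu0] at h2
    refine Nat.le_floor ?_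
    -- `w log u ≤ c m u ≤ 2 c ℓ log u`
    have h6 : ((n + k).primeFactors.card : ℝ) * Real.log u ≤ 2 * c * ℓ * Real.log u := by
      calc ((n + k).primeFactors.card : ℝ) * Real.log u ≤ c * m * u := h2
        _ = c * (m * u) := by ring
        _ ≤ c * (2 * ℓ * Real.log u) := mul_le_mul_of_nonneg_left h4 hc0.le
        _ = 2 * c * ℓ * Real.log u := by ring
    exact le_of_mul_le_mul_right h6 h3
  have hcore := core (by omega : 1 ≤ J) hY3 hmass x H E hE hEM
  -- first term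
  have hMpos : (1 : ℝ) ≤ M := by exact_mod_cast hM2
  have t1 : (1 / 4 : ℝ) ^ (J * M) ≤ Real.exp (-L ^ (1 - ε)) / 2 := by
    have h2 : (1 / 4 : ℝ) ^ (J * M) ≤ (1 / 4) ^ J :=
      pow_le_pow_of_le_one (by norm_num) (by norm_num) (Nat.le_mul_of_pos_right _ (by omega))
    have h3 : (1 / 4 : ℝ) ^ J = Real.exp (-(J * (2 * Real.log 2))) := by
      have h4 : (1 / 4 : ℝ) = Real.exp (-(2 * Real.log 2)) := by
        have h5 : (2 : ℝ) * Real.log 2 = Real.log 2 + Real.log 2 := by ring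
        rw [h5, Real.exp_neg, Real.exp_add, Real.exp_log (by norm_num)]
        norm_num
      rw [h4, ← Real.exp_nat_mul]
      congr 1
      ring
    have h6 : Real.exp (-L ^ (1 - ε)) / 2 = Real.exp (-L ^ (1 - ε) - Real.log 2) := by
      rw [Real.exp_sub, Real.exp_log (by norm_num)]
    rw [h6]
    refine h2.trans ?_
    rw [h3]
    refine Real.exp_le_exp.2 ?_
    nlinarith
  -- second term
  have t2 : (16 * (Y : ℝ) ^ 8) ^ (J * M) ≤ H * (Real.exp (-L ^ (1 - ε)) / 2) := by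
    have h2 : (16 * (Y : ℝ) ^ 8) ^ (J * M) =
        Real.exp (((J * M : ℕ) : ℝ) * (4 * Real.log 2 + 8 * Real.log Y)) := by
      have h3 : 16 * (Y : ℝ) ^ 8 = Real.exp (4 * Real.log 2 + 8 * Real.log Y) := by
        have h4 : Real.exp (4 * Real.log 2) = 16 := by
          have h5 : (4 : ℝ) * Real.log 2 = Real.log (2 ^ 4) := by
            rw [Real.log_pow]
            norm_num
          rw [h5, Real.exp_log (by norm_num)]
          norm_num
        have h6 : Real.exp (8 * Real.log Y) = (Y : ℝ) ^ 8 := by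
          have h7 : (8 : ℝ) * Real.log Y = Real.log ((Y : ℝ) ^ 8) := by
            rw [Real.log_pow]
            norm_num
          rw [h7, Real.exp_log (by positivity)]
        rw [Real.exp_add, h4, h6]
      rw [h3, ← Real.exp_nat_mul]
    have h6 : (H : ℝ) * (Real.exp (-L ^ (1 - ε)) / 2) =
        Real.exp (L - L ^ (1 - ε) - Real.log 2) := by
      rw [Real.exp_sub, Real.exp_sub, hHexp, Real.exp_log (show (0 : ℝ) < 2 by norm_num),
        Real.exp_neg]
      ring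
    rw [h2, h6]
    refine Real.exp_le_exp.2 ?_
    have h7 : 4 * Real.log 2 + 8 * Real.log Y ≤ 10 * Z := by linarith
    have h8 : ((J * M : ℕ) : ℝ) ≤ (2 * L ^ (1 - ε)) * (2 * c * ℓ) := by
      push_cast
      exact mul_le_mul (by linarith) hM1 (by linarith) (by linarith)
    have h9 : 0 ≤ 4 * Real.log 2 + 8 * Real.log Y := by linarith
    have h10 : ((J * M : ℕ) : ℝ) * (4 * Real.log 2 + 8 * Real.log Y) ≤
        (2 * L ^ (1 - ε)) * (2 * c * ℓ) * (10 * Z) :=
      mul_le_mul h8 h7 h9 (by positivity)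
    have h11 : L ^ (1 - ε) * Z * Z = L := by
      rw [hZ, ← Real.rpow_add hL0, ← Real.rpow_add hL0]
      have : 1 - ε + ε / 2 + ε / 2 = 1 := by ring
      rw [this, Real.rpow_one]
    have hP0 : 0 ≤ L ^ (1 - ε) * Z := by positivity
    have h12 : (2 * L ^ (1 - ε)) * (2 * c * ℓ) * (10 * Z) ≤ L / 4 := by
      have h13 : (2 * L ^ (1 - ε)) * (2 * c * ℓ) * (10 * Z) =
          (40 * c) * ((L ^ (1 - ε) * Z) * ℓ) := by ring
      have h14 : (L ^ (1 - ε) * Z) * ℓ ≤ L / 2 := by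
        have : (L ^ (1 - ε) * Z) * ℓ ≤ (L ^ (1 - ε) * Z) * (Z / 2) :=
          mul_le_mul_of_nonneg_left (by linarith) hP0
        linarith
      have h15 : 40 * c ≤ 1 / 2 := by rw [hc]; linarith
      have h16 : 0 ≤ (L ^ (1 - ε) * Z) * ℓ := by positivity
      rw [h13]
      calc (40 * c) * ((L ^ (1 - ε) * Z) * ℓ) ≤ (1 / 2) * (L / 2) :=
            mul_le_mul h15 h14 h16 (by norm_num)
        _ = L / 4 := by ring
    linarith
  have hH0 : (0 : ℝ) ≤ H := Nat.cast_nonneg H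
  calc (E.card : ℝ) ≤ H * (1 / 4) ^ (J * M) + (16 * (Y : ℝ) ^ 8) ^ (J * M) := hcore
    _ ≤ H * (Real.exp (-L ^ (1 - ε)) / 2) + H * (Real.exp (-L ^ (1 - ε)) / 2) :=
        add_le_add (mul_le_mul_of_nonneg_left t1 hH0) t2
    _ = H * Real.exp (-L ^ (1 - ε)) := by ring

/-- **Main theorem.** -/
theorem main (ε : ℝ) (h0 : 0 < ε) (h1 : ε < 1) : ∃ c : ℝ, 0 < c ∧ ∃ H₀ : ℕ,
    ∀ H : ℕ, H₀ ≤ H → ∀ x : ℕ,
      (({n : ℕ | x ≤ n ∧ n < x + H ∧
        N4a4fba6b.F n ≤ c * Real.log (Real.log (Real.log H))}.ncard : ℕ) : ℝ) ≤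
        H * Real.exp (-(Real.log H) ^ (1 - ε)) := by
  have hev : ∀ᶠ H : ℕ in atTop, Good ε (Real.log H) :=
    (Real.tendsto_log_atTop.comp tendsto_natCast_atTop_atTop).eventually (good_ev h0 h1)
  obtain ⟨N, hN⟩ := eventually_atTop.1 hev
  refine ⟨ε / 300, by linarith, max N 1, fun H hH x => ?_⟩
  classical
  have hset : {n : ℕ | x ≤ n ∧ n < x + H ∧
      N4a4fba6b.F n ≤ ε / 300 * Real.log (Real.log (Real.log H))} =
      (((Ico x (x + H)).filter fun n =>
        N4a4fba6b.F n ≤ ε / 300 * Real.log (Real.log (Real.log H)) : Finset ℕ) : Set ℕ) := by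
    ext n
    rw [Finset.coe_filter, Set.mem_ofPred_eq, Set.mem_ofPred_eq, Finset.mem_Ico, and_assoc]
  rw [hset, Set.ncard_coe_finset]
  exact interval h0 h1 (by omega) (hN H ((le_max_left _ _).trans hH)) x _
    (Finset.filter_subset _ _) fun n hn => (Finset.mem_filter.1 hn).2

end Pool.Agent.Helper73.OmegaShift
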